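import Mathlib
import Pool.Agent.H922R2.OPC.Stubs

/-! Task SPP of helper922: specialised elements have no positive values. -/

set_option autoImplicit false

open MvPolynomial

namespace Pool.Agent.H977P.SPP

open Pool.Agent.H922R2.OPC

variable {k : Type} [Field k]

lemma sp_rot_coeff (μ c : k) (E : L k) (w : ℤ) :
    (sp μ (rot c E)).coeff w = c ^ w * (sp μ E).coeff w := by
  simp [sp, rot]

lemma ge_prod (hMUL : S_MUL) (s : ℕ → LaurentSeries k) (hs : ∀ i, Ge 1 (s i)) (m : ℕ) :
    Ge (m : ℤ) (∏ i ∈ Finset.range m, s i) := by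
  induction m with
  | zero =>
    intro i hi
    simp only [Finset.range_zero, Finset.prod_empty]
    rw [HahnSeries.coeff_one, if_neg]
    intro h
    rw [h] at hi
    simp at hi
  | succ m ih =>
    rw [Finset.prod_range_succ]
    have := (hMUL k (m : ℤ) 1 _ _ ih (hs m)).1
    push_cast
    exact this

/-- no coefficients of positive index -/
def Neg (x : LaurentSeries k) : Prop := ∀ w : ℤ, 1 ≤ w → x.coeff w = 0

lemma neg_add {x y : LaurentSeries k} (hx : Neg x) (hy : Neg y) : Neg (x + y) := by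
  intro w hw
  rw [HahnSeries.coeff_add, hx w hw, hy w hw, add_zero]

lemma neg_mul_single {x : LaurentSeries k} (hx : Neg x) (a : ℤ) (ha : a ≤ 0) (r : k) :
    Neg (x * HahnSeries.single a r) := by
  intro w hw
  have h := HahnSeries.coeff_mul_single_add (x := x) (r := r) (a := w - a) (b := a)
  rw [sub_add_cancel] at h
  rw [h, hx (w - a) (by omega), zero_mul]

lemma neg_single (a : ℤ) (ha : a ≤ 0) (r : k) : Neg (HahnSeries.single a r : LaurentSeries k) := by
  intro w hw
  rw [HahnSeries.coeff_single_of_ne (by omega)]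

lemma sp_C (μ a : k) : sp μ (algebraMap k (L k) a) = HahnSeries.single 0 a := by
  have e : algebraMap k (L k) a = HahnSeries.C (Polynomial.C a) := by
    rw [HahnSeries.algebraMap_apply', PowerSeries.algebraMap_apply, HahnSeries.ofPowerSeries_C]
    rfl
  rw [e]
  ext w
  by_cases hw : w = 0
  · subst hw
    simp [sp]
  · simp [sp, HahnSeries.coeff_single_of_ne hw]

lemma sp_tp (μ : k) (a : ℤ) : sp μ (tp a : L k) = HahnSeries.single a 1 := by
  ext w
  by_cases hw : w = a
  · subst hw
    simp [sp, tp]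
  · simp [sp, tp, HahnSeries.coeff_single_of_ne hw]

lemma sp_lam (μ : k) : sp μ (lam : L k) = HahnSeries.single 0 μ := by
  ext w
  by_cases hw : w = 0
  · subst hw
    simp [sp, lam]
  · simp [sp, lam, HahnSeries.coeff_single_of_ne hw]

theorem spp (k : Type) [Field k] [IsAlgClosed k] [CharZero k] (hMON : S_MON k) : S_SPP k := by
  intro hMUL hSPR hROT hEVF hINJ hCHR n f φ ζ hOP μ h hge
  obtain ⟨R, hR⟩ := hSPR μ
  obtain ⟨g, hg⟩ := hCHR hROT hEVF hMON n f φ ζ hOP h 0
  have hn : 0 < n := hOP.1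
  have hζ : ζ ≠ 0 := hOP.2.1.ne_zero hn.ne'
  have h1 : (∏ i ∈ Finset.range n,
      (Polynomial.X - Polynomial.C (rot (ζ ^ i) (ev n φ h)))).coeff 0 =
      ∏ i ∈ Finset.range n, (-(rot (ζ ^ i) (ev n φ h))) := by
    rw [Polynomial.coeff_zero_eq_eval_zero, Polynomial.eval_prod]
    simp
  have h2 : ∀ g : B k, Neg (R (ev n φ (aeval ![X 0, f] g))) := by
    intro g
    induction g using MvPolynomial.induction_on with
    | C a =>
      have e : R (ev n φ (aeval ![X 0, f] (C a : B k))) = HahnSeries.single 0 a := by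
        rw [hR, ← MvPolynomial.algebraMap_eq, AlgHom.commutes, AlgHom.commutes, sp_C]
      rw [e]
      exact neg_single 0 le_rfl a
    | add p q hp hq =>
      rw [map_add, map_add, map_add]
      exact neg_add hp hq
    | mul_X p i hp =>
      rw [map_mul, map_mul, map_mul]
      fin_cases i
      · have e : R (ev n φ (aeval ![X 0, f] (X 0 : B k))) = HahnSeries.single (-(n : ℤ)) 1 := by
          rw [hR, aeval_X]
          simp only [Matrix.cons_val_zero, ev, aeval_X]
          exact sp_tp μ _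
        change Neg (_ * R (ev n φ (aeval ![X 0, f] (X 0 : B k))))
        rw [e]
        exact neg_mul_single hp _ (by omega) 1
      · have e : R (ev n φ (aeval ![X 0, f] (X 1 : B k))) = HahnSeries.single 0 μ := by
          rw [hR, aeval_X]
          simp only [Matrix.cons_val_one, Matrix.cons_val_fin_one]
          rw [hEVF n f φ ζ hOP]
          exact sp_lam μ
        change Neg (_ * R (ev n φ (aeval ![X 0, f] (X 1 : B k))))
        rw [e]
        exact neg_mul_single hp _ le_rfl μ
  have h3 : R (∏ i ∈ Finset.range n, (-(rot (ζ ^ i) (ev n φ h)))) =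
      ∏ i ∈ Finset.range n, (-(sp μ (rot (ζ ^ i) (ev n φ h)))) := by
    rw [map_prod]
    refine Finset.prod_congr rfl (fun i _ => ?_)
    rw [map_neg, hR]
  have hge' : ∀ i : ℕ, Ge 1 (-(sp μ (rot (ζ ^ i) (ev n φ h)))) := by
    intro i w hw
    rw [HahnSeries.coeff_neg, sp_rot_coeff, hge w hw, mul_zero, neg_zero]
  have h4 : ∏ i ∈ Finset.range n, (-(sp μ (rot (ζ ^ i) (ev n φ h)))) = 0 := by
    have hG := ge_prod hMUL (fun i => -(sp μ (rot (ζ ^ i) (ev n φ h)))) hge' n
    have hN := h2 g
    rw [← hg, h1, h3] at hN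
    ext w
    rw [HahnSeries.coeff_zero]
    by_cases hw : 1 ≤ w
    · exact hN w hw
    · exact hG w (by omega)
  obtain ⟨i, -, hi⟩ := Finset.prod_eq_zero_iff.mp h4
  rw [neg_eq_zero] at hi
  ext w
  rw [HahnSeries.coeff_zero]
  have h5 : (ζ ^ i) ^ w * (sp μ (ev n φ h)).coeff w = 0 := by
    rw [← sp_rot_coeff, hi, HahnSeries.coeff_zero]
  exact (mul_eq_zero.mp h5).resolve_left (zpow_ne_zero _ (pow_ne_zero _ hζ))

end Pool.Agent.H977P.SPP
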